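import Mathlib
import Pool.Agent.H59.Er.Stage

/-!
# Choice of the parameters, sharper version

Adapted from Pool/Agent/H59/Er/ParamE.lean.
-/

set_option autoImplicit false
set_option linter.unusedSectionVars false

namespace Pool.Agent.Er9

open Pool.Agent.H59.Er Classical

private theorem par2_alph {K E J lm : ℕ} (hJ : J ≤ lm) (hlm : 1 ≤ lm) (r : ℕ) :
    alph K E J lm r ≤ (lm * 2 ^ (J + 1)) * 10 * ((K + E + 40) ^ 2 * lm) ^ r := by
  have hσ : lm ≤ lm * 2 ^ (J + 1) := Nat.le_mul_of_pos_right _ (by positivity)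
  induction r with
  | zero =>
    rw [alph, pow_zero, mul_one]
    omega
  | succ r ih =>
    rw [alph]
    set σ := lm * 2 ^ (J + 1) with hs
    set A := alph K E J lm r with hA
    set B := σ * 10 * ((K + E + 40) ^ 2 * lm) ^ r with hB
    have hσB : σ * 10 ≤ B := Nat.le_mul_of_pos_right _ (by positivity)
    have e1 : σ * 10 * ((K + E + 40) ^ 2 * lm) ^ (r + 1) = B * ((K + E + 40) ^ 2 * lm) := by
      rw [hB, pow_succ]; ring
    rw [e1]
    have h1 : (K + 1) * (2 * J * A + E * σ) ≤ (K + 1) * ((2 + E) * (lm * B)) := by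
      apply Nat.mul_le_mul_left
      have a1 : 2 * J * A ≤ 2 * lm * B := Nat.mul_le_mul (Nat.mul_le_mul_left 2 hJ) ih
      have a2 : E * σ ≤ E * (lm * B) := by
        apply Nat.mul_le_mul_left
        have : B ≤ lm * B := Nat.le_mul_of_pos_left _ hlm
        omega
      calc 2 * J * A + E * σ ≤ 2 * lm * B + E * (lm * B) := Nat.add_le_add a1 a2
        _ = (2 + E) * (lm * B) := by ring
    have h2 : 2 * (7 + 3 * σ) + 3 * lm ≤ 23 * (lm * B) := by
      have : B ≤ lm * B := Nat.le_mul_of_pos_left _ hlm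
      omega
    calc 2 * (7 + 3 * σ) + (K + 1) * (2 * J * A + E * σ) + 3 * lm
        ≤ (K + 1) * ((2 + E) * (lm * B)) + 23 * (lm * B) := by omega
      _ = ((K + 1) * (2 + E) + 23) * (lm * B) := by ring
      _ ≤ (K + E + 40) ^ 2 * (lm * B) := by
          apply Nat.mul_le_mul_right
          nlinarith [Nat.zero_le (K * K), Nat.zero_le (E * E), Nat.zero_le (K * E)]
      _ = B * ((K + E + 40) ^ 2 * lm) := by ring

private theorem par2_ev (C d : ℕ) : ∀ᶠ n : ℕ in Filter.atTop, C * n ^ d ≤ 2 ^ n := by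
  have h := tendsto_pow_const_div_const_pow_of_one_lt d (r := (2 : ℝ)) one_lt_two
  have h1 : ∀ᶠ n : ℕ in Filter.atTop, (n : ℝ) ^ d / 2 ^ n < 1 / ((C : ℝ) + 1) :=
    h.eventually_lt_const (by positivity)
  filter_upwards [h1] with n hn
  rw [div_lt_div_iff₀ (by positivity) (by positivity), one_mul] at hn
  have h3 : (C : ℝ) * n ^ d ≤ 2 ^ n := by
    have : (0 : ℝ) ≤ (n : ℝ) ^ d := by positivity
    nlinarith
  exact_mod_cast h3

/-- **Parameters.** -/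
theorem params2 (k K s n0 m0 : ℕ) {f1 f2 : ℕ → ℕ}
    (h1 : ∀ r > 0, ∃ n1, ∀ n ≥ n1, f1 n ≤ 2 ^ (n / (r * Nat.log 2 n ^ (k + 1))))
    (h2 : ∀ r > 0, ∃ n1, ∀ n ≥ n1, f2 n ≤ 2 ^ (n / (r * Nat.log 2 n ^ (k + 1)))) :
    ∃ lm J : ℕ, k + K + s + 20 ≤ lm ∧ alph K (12 + 2 * s) J lm (k + 1) ≤ 2 ^ lm ∧
      n0 < 2 ^ lm ∧ m0 ≤ 2 ^ lm ∧
      k * (f1 (2 ^ lm) + 1) + f2 (2 ^ lm) + 2 ^ lm + 2 ≤ 2 ^ (lm * 2 ^ (J + 1)) := by
  set c := K + (12 + 2 * s) + 40 with hc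
  have hR0 : 0 < 40 * c ^ (2 * k + 2) := by positivity
  obtain ⟨n1, hn1⟩ := h1 (40 * c ^ (2 * k + 2)) hR0
  obtain ⟨n2, hn2⟩ := h2 (40 * c ^ (2 * k + 2)) hR0
  obtain ⟨lm, hL1, hL2, hL3, hL4, hL5, hL6, hL7⟩ :=
    ((par2_ev (40 * c ^ (2 * k + 2)) (k + 2)).and
      ((Filter.eventually_ge_atTop (k + K + s + 20)).and
      ((Filter.eventually_ge_atTop (20 * c ^ (2 * k + 2))).and
      ((Filter.eventually_ge_atTop n0).and
      ((Filter.eventually_ge_atTop m0).and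
      ((Filter.eventually_ge_atTop n1).and (Filter.eventually_ge_atTop n2))))))).exists
  set P := 10 * lm * (c ^ 2 * lm) ^ (k + 1) with hP
  have hc0 : 0 < c := by omega
  have hlm0 : 0 < lm := by omega
  have hP1 : 1 < P := by
    have : 1 ≤ (c ^ 2 * lm) ^ (k + 1) := Nat.one_le_pow _ _ (by positivity)
    nlinarith
  have hPe : 4 * P = 40 * c ^ (2 * k + 2) * lm ^ (k + 2) := by
    rw [hP, mul_pow, ← pow_mul, show 2 * (k + 1) = 2 * k + 2 by ring, pow_succ lm (k + 1)]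
    ring
  set μ := Nat.clog 2 P with hμ
  have hμ1 : P ≤ 2 ^ μ := Nat.le_pow_clog one_lt_two P
  have hμ2 : 2 ^ μ < 2 * P := by
    have h := Nat.pow_pred_clog_lt_self one_lt_two hP1
    have hμ0 : 0 < μ := Nat.clog_pos one_lt_two hP1
    have : 2 ^ μ = 2 * 2 ^ (μ - 1) := by
      rw [← pow_succ']; congr 1; omega
    rw [this]
    have h' : 2 ^ (μ - 1) < P := by
      rw [hμ]
      exact h
    omega
  have hμlm : μ + 1 ≤ lm := by
    have h3 : 2 ^ (μ + 1) < 2 ^ lm := by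
      calc 2 ^ (μ + 1) = 2 * 2 ^ μ := by rw [pow_succ']
        _ < 2 * (2 * P) := by omega
        _ = 4 * P := by ring
        _ ≤ 2 ^ lm := by rw [hPe]; exact hL1
    exact ((Nat.pow_lt_pow_iff_right one_lt_two).mp h3).le
  refine ⟨lm, lm - μ - 1, hL2, ?_, hL4.trans_lt Nat.lt_two_pow_self, hL5.trans Nat.lt_two_pow_self.le, ?_⟩
  · have h4 := par2_alph (K := K) (E := 12 + 2 * s) (J := lm - μ - 1) (lm := lm) (by omega) hlm0 (k + 1)
    refine h4.trans ?_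
    have e : lm - μ - 1 + 1 = lm - μ := by omega
    rw [e]
    calc lm * 2 ^ (lm - μ) * 10 * (c ^ 2 * lm) ^ (k + 1) = 2 ^ (lm - μ) * P := by rw [hP]; ring
      _ ≤ 2 ^ (lm - μ) * 2 ^ μ := Nat.mul_le_mul_left _ hμ1
      _ = 2 ^ lm := by rw [← pow_add]; congr 1; omega
  · have e : lm - μ - 1 + 1 = lm - μ := by omega
    rw [e]
    set σ := lm * 2 ^ (lm - μ) with hσ
    have hlog : Nat.log 2 (2 ^ lm) = lm := Nat.log_pow one_lt_two lm
    have a1 := hn1 (2 ^ lm) (hL6.trans Nat.lt_two_pow_self.le)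
    have a2 := hn2 (2 ^ lm) (hL7.trans Nat.lt_two_pow_self.le)
    rw [hlog] at a1 a2
    set q := 2 ^ lm / (40 * c ^ (2 * k + 2) * lm ^ (k + 1)) with hq
    have b1 : q * (40 * c ^ (2 * k + 2) * lm ^ (k + 1)) ≤ 2 ^ lm := Nat.div_mul_le_self _ _
    have b2 : lm * 2 ^ lm ≤ σ * (2 * P) := by
      rw [hσ, mul_assoc]
      apply Nat.mul_le_mul_left
      calc 2 ^ lm = 2 ^ (lm - μ) * 2 ^ μ := by rw [← pow_add]; congr 1; omega
        _ ≤ 2 ^ (lm - μ) * (2 * P) := Nat.mul_le_mul_left _ hμ2.le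
    have b3 : 2 * P = 20 * c ^ (2 * k + 2) * lm ^ (k + 2) := by
      have : 2 * (2 * P) = 2 * (20 * c ^ (2 * k + 2) * lm ^ (k + 2)) := by
        rw [← mul_assoc, show 2 * 2 * P = 4 * P by ring, hPe]; ring
      omega
    have b4 : 2 * q ≤ σ := by
      have h5 : (2 * q) * (20 * c ^ (2 * k + 2) * lm ^ (k + 2)) ≤
          σ * (20 * c ^ (2 * k + 2) * lm ^ (k + 2)) := by
        calc (2 * q) * (20 * c ^ (2 * k + 2) * lm ^ (k + 2))
            = lm * (q * (40 * c ^ (2 * k + 2) * lm ^ (k + 1))) := by ring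
          _ ≤ lm * 2 ^ lm := Nat.mul_le_mul_left _ b1
          _ ≤ σ * (20 * c ^ (2 * k + 2) * lm ^ (k + 2)) := by rw [← b3]; exact b2
      exact Nat.le_of_mul_le_mul_right h5 (by positivity)
    have b5 : 2 * lm ≤ σ := by
      rw [hσ, mul_comm]
      apply Nat.mul_le_mul_left
      calc 2 = 2 ^ 1 := by norm_num
        _ ≤ 2 ^ (lm - μ) := Nat.pow_le_pow_right (by norm_num) (by omega)
    have b6 : q + k + 1 ≤ σ - 1 := by omega
    have c1 : k * (f1 (2 ^ lm) + 1) + f2 (2 ^ lm) ≤ (k + 1) * 2 ^ q + k := by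
      have h6 : k * f1 (2 ^ lm) ≤ k * 2 ^ q := Nat.mul_le_mul_left _ a1
      calc k * (f1 (2 ^ lm) + 1) + f2 (2 ^ lm) = k * f1 (2 ^ lm) + k + f2 (2 ^ lm) := by ring
        _ ≤ k * 2 ^ q + k + 2 ^ q := by omega
        _ = (k + 1) * 2 ^ q + k := by ring
    have c2 : (k + 1) * 2 ^ q ≤ 2 ^ (σ - 1) := by
      calc (k + 1) * 2 ^ q ≤ 2 ^ (k + 1) * 2 ^ q := Nat.mul_le_mul_right _ Nat.lt_two_pow_self.le
        _ = 2 ^ (q + k + 1) := by rw [← pow_add]; congr 1; ring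
        _ ≤ 2 ^ (σ - 1) := Nat.pow_le_pow_right (by norm_num) b6
    have c3 : 2 ^ lm + (k + 2) ≤ 2 ^ (σ - 1) := by
      have h7 : lm < 2 ^ lm := Nat.lt_two_pow_self
      calc 2 ^ lm + (k + 2) ≤ 2 ^ lm + 2 ^ lm := by omega
        _ = 2 ^ (lm + 1) := by rw [pow_succ]; ring
        _ ≤ 2 ^ (σ - 1) := Nat.pow_le_pow_right (by norm_num) (by omega)
    have c4 : 2 ^ σ = 2 ^ (σ - 1) + 2 ^ (σ - 1) := by
      have : σ = (σ - 1) + 1 := by omega
      conv_lhs => rw [this]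
      rw [pow_succ]; ring
    omega

end Pool.Agent.Er9
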