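import Mathlib
import Pool.Agent.H59.Er.Chain
import Pool.Agent.H59.Er.Use
import Pool.Agent.H59.Er.Fool
import Pool.Agent.H9.Er2.Param2

/-!
# One step of the diagonal construction
-/

set_option autoImplicit false
set_option linter.unusedSectionVars false

namespace Pool.Agent.Er9

open Pool.Agent.H59.Er Classical
open Pool.Agent.H9 (Qn Hr Mr Oracle Alt AcceptsIn strings mem_strings code totalLength run)

/-- The absence of an answer depends only on short words. -/
theorem unk_congr {g : ℕ → Qn} {h : Hr} (hok : h.ok g) {A A' : Oracle} {n l M Λ : ℕ}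
    (hM : h.N (n + l) < M) (hΛ : h.1 + 3 * M + 10 ≤ Λ)
    (hA : ∀ w : List Bool, w.length ≤ Λ → A w = A' w) {r : List Bool} (hr : r.length = h.m n)
    (hU : Unk h A n l r) : Unk h A' n l r := by
  have h1 : h.N n ≤ h.N (n + l) := hr_N_mono h (by omega)
  have h2 : (g h.1).bnd (h.ax n) + 2 ≤ h.N n := by
    refine le_trans ?_ (hok n)
    nlinarith
  have h3 : h.ax n ≤ (g h.1).bnd (h.ax n) := ax_le_bnd _ _
  have hstr : h.str A n r = h.str A' n r := str_congr hr (by omega) hA
  have hlen : (h.str A n r).length ≤ h.ax n := str_len h A n hr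
  intro b hb
  apply hU b
  rw [hstr, hA, hb]
  rw [← hstr]
  simp only [List.length_cons, Pool.Agent.H9.code_length]
  omega

/-- **One step of the construction**, with bounds depending on the number of blocks. -/
theorem step_exists2 (FT : ℕ → ℕ → ℕ → ℕ)
    (hFT : ∀ k i, ∀ c > 0, ∃ n1, ∀ n ≥ n1, FT k i n ≤ 2 ^ (n / (c * Nat.log 2 n ^ (k + 1))))
    (g : ℕ → Qn) (hs : ℕ → Hr) (r : Mr) (s : ℕ) (st : Stt) :
    ∃ st' : Stt, (∀ v : Nd, v.2.1.length < st.n → st'.T.W v = st.T.W v ∧ st'.T.A v = st.T.A v) ∧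
      st.n < st'.n ∧ st.m < st'.m ∧
      ∀ T : Tbl, (∀ v : Nd, v.2.1.length < st'.n → T.W v = st'.T.W v ∧ T.A v = st'.T.A v) →
        FailsE (FT r.2.1) g r T ∧ GoodE g hs s st.m st'.m (orc g T) := by
  obtain ⟨p, k, i1, i2, e⟩ := r
  simp only
  obtain ⟨K, hK⟩ : ∃ K, ∀ i < s, (g (hs i).1).k ≤ K :=
    ⟨∑ i ∈ Finset.range s, (g (hs i).1).k, fun i hi =>
      Finset.single_le_sum (f := fun i => (g (hs i).1).k) (fun _ _ => Nat.zero_le _)
        (Finset.mem_range.2 hi)⟩
  obtain ⟨lm, J, hp1, hp2, hp3, hp4, hp5⟩ := params2 k K s st.n st.m (hFT k i1) (hFT k i2)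
  let S : Sg := ⟨k, K, s, lm, J, st.T⟩
  have hSn : S.n = 2 ^ lm := rfl
  have hS : S.Ok := ⟨hp1, hp2⟩
  obtain ⟨ch, c0, c1, c2, c3, c4⟩ := hS.chain g hs hK
  obtain ⟨x, hx, y, hy, hfail⟩ := hS.fool c3 (kap g (S.tab ch)) e p (FT k i1 (2 ^ lm))
    (FT k i2 (2 ^ lm)) (by
      show k * (FT k i1 (2 ^ lm) + 1) + FT k i2 (2 ^ lm) ≤ 2 ^ (lm * 2 ^ (J + 1))
      omega)
  -- the values of `x` are allowed
  have hxV : ∀ v, x v ∈ S.V v := by
    intro v
    have h1 := hx v
    have h2 := c0 S.J v
    simp only at h2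
    cases h3 : ch S.J v with
    | none => rw [h3] at h1; exact h1
    | some a =>
      rw [h3] at h1
      have h4 : x v = a := Finset.mem_singleton.1 h1
      rw [h4]
      exact h2 a h3
  -- the new chain
  let ch' : S.Ch := fun i => if i ≤ S.J then ch i else fun v => some (x v)
  have hch1 : ∀ i, i ≤ S.J → ch' i = ch i := fun i hi => if_pos hi
  have hch2 : ∀ i, S.J < i → ch' i = fun v => some (x v) := fun i hi => if_neg (by omega)
  have hsub : ∀ i j, i ≤ j → Wd S.V (ch j) ⊆ Wd S.V (ch i) := by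
    intro i j hij
    induction j, hij using Nat.le_induction with
    | base => exact fun _ h => h
    | succ j _ ih => exact fun z hz => ih ((c1 j).wd hz)
  have hx' : ∀ i, x ∈ Wd S.V (ch' i) := by
    intro i
    by_cases hi : i ≤ S.J
    · rw [hch1 i hi]
      exact hsub i S.J hi hx
    · rw [hch2 i (by omega)]
      intro v
      exact Finset.mem_singleton_self _
  have hkap : ∀ w : List Bool, w.length ≤ S.thr (S.J + 1) →
      kap g (S.tab ch) w = kap g (S.tab ch') w := by
    intro w hw
    apply hS.kap_congr g (j := S.J + 1) (by omega) _ w hw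
    intro i hi
    exact (hch1 i (by omega)).symm
  -- the new table
  have hmem : ∀ v N, S.emb x v ∈ S.tab ch' v N := by
    intro v N
    unfold Sg.tab
    by_cases h : v ∈ S.U
    · rw [dif_pos h, Sg.emb_of_mem h]
      exact ⟨x ⟨v, h⟩, hx' _ ⟨v, h⟩, rfl⟩
    · rw [dif_neg h]
      by_cases h2 : v.2.1.length < S.n
      · rw [if_pos h2, Sg.emb_of_lt h2]
        exact S.T0.mem v N
      · rw [if_neg h2, Sg.emb_of_not h h2]
        exact Set.mem_singleton _
  let T' : Tbl := ⟨S.tab ch', S.emb x, hmem, hS.emb_len hxV⟩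
  set M := S.thr (S.J + 1) with hM
  have hMval : M = 2 ^ (lm * 2 ^ (J + 1)) := rfl
  have hnM : 2 ^ lm < M := by
    rw [hMval]
    apply Nat.pow_lt_pow_right (by norm_num)
    have h1 : 2 ^ 1 ≤ 2 ^ (J + 1) := Nat.pow_le_pow_right (by norm_num) (by omega)
    have h2 : 1 ≤ lm := hS.one_le
    nlinarith
  have hcoh : ∀ v N, M ≤ N → T'.A v N = {T'.W v} := by
    intro v N hN
    show S.tab ch' v N = {S.emb x v}
    have hsc : S.J < S.sc N := by
      have := S.le_sc hS.one_le (N := N) (j := S.J + 1) hN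
      omega
    unfold Sg.tab
    by_cases h : v ∈ S.U
    · rw [dif_pos h, Sg.emb_of_mem h, hch2 _ hsc]
      ext u
      constructor
      · rintro ⟨a, ha, rfl⟩
        have h4 : a = x ⟨v, h⟩ := Finset.mem_singleton.1 ha
        rw [h4]
        exact Set.mem_singleton _
      · intro hu
        rw [Set.mem_singleton_iff] at hu
        exact ⟨x ⟨v, h⟩, Finset.mem_singleton_self _, hu.symm⟩
    · rw [dif_neg h]
      by_cases h2 : v.2.1.length < S.n
      · rw [if_pos h2, Sg.emb_of_lt h2]
        exact st.coh v N (by omega)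
      · rw [if_neg h2, Sg.emb_of_not h h2]
  -- the length
  obtain ⟨Λ0, hΛ0⟩ : ∃ Λ, ∀ i < s, (hs i).1 ≤ Λ :=
    ⟨∑ i ∈ Finset.range s, (hs i).1, fun i hi =>
      Finset.single_le_sum (f := fun i => (hs i).1) (fun _ _ => Nat.zero_le _)
        (Finset.mem_range.2 hi)⟩
  let n' := Λ0 + 3 * M + 10
  refine ⟨⟨T', n', M, hcoh⟩, ?_, ?_, ?_, ?_⟩
  · intro v hv
    have hv2 : v.2.1.length < S.n := by rw [hSn]; omega
    have hvU : v ∉ S.U := by
      intro h
      have := (S.mem_U.1 h).2.1
      omega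
    constructor
    · show S.emb x v = st.T.W v
      rw [Sg.emb_of_lt hv2]
    · show S.tab ch' v = st.T.A v
      funext N
      unfold Sg.tab
      rw [dif_neg hvU, if_pos hv2]
  · show st.n < Λ0 + 3 * M + 10
    omega
  · show st.m < M
    omega
  · intro T hT
    have hw : ∀ w : List Bool, w.length ≤ n' → orc g T w = orc g T' w :=
      fun w hw => orc_congr (M := n') hT w hw
    have hT' : orc g T' = comb (S.emb x) (kap g (S.tab ch')) := rfl
    constructor
    · refine ⟨y, fun h => hfail ?_⟩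
      have hlen : y.length = 2 ^ lm := hy
      simp only at h
      rw [hlen] at h
      have e1 : Alt e k (FT k i1 (2 ^ lm)) (fun us => AcceptsIn (comb (S.emb x)
          (kap g (S.tab ch))) p (y :: us) (FT k i2 (2 ^ lm))) ↔
          Alt e k (FT k i1 (2 ^ lm)) (fun us => AcceptsIn (orc g T) p (y :: us)
            (FT k i2 (2 ^ lm))) := by
        apply Pool.Agent.H9.alt_accepts_congr (Λ := M)
        · rw [hlen, hMval]
          have : k * (FT k i1 (2 ^ lm) + 1) = k * FT k i1 (2 ^ lm) + k := by ring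
          omega
        · intro w hwM
          rw [hw w (by show w.length ≤ Λ0 + 3 * M + 10; omega), hT']
          refine comb_congr (L := M) (fun _ _ => rfl) ?_ w hwM
          intro w' hw'
          exact hkap w' hw'.le
      have e2 : y ∈ Lg T.W (k + 1) true ↔ y ∈ Lg (S.emb x) (k + 1) true := by
        have h3 := (hT (k + 1, y, []) (by
          show y.length < Λ0 + 3 * M + 10
          omega)).1
        show (T.W (k + 1, y, [])).head? = some true ↔ (S.emb x (k + 1, y, [])).head? = some true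
        rw [h3]
      exact e1.trans (h.trans e2)
    · have hgood : GoodE g hs S.s st.m (S.thr (S.J + 1)) (orc g T') := by
        refine hS.use g hs (m0 := st.m) (fun v N hN => st.coh v N hN) (ch := ch') ?_ hx' rfl rfl
        intro i hi1 hi2
        rw [hch1 i hi2]
        apply hS.lv_congr g hs (ch i) (κ := kap g (S.tab ch)) _ (c4 i hi1 hi2)
        intro w hw'
        exact hkap w (hw'.trans (S.thr_mono (by omega)))
      intro i hi hok n l hN1 hN2
      refine le_trans (Nat.mul_le_mul_left _ (Finset.card_le_card ?_))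
        (hgood i hi hok n l hN1 hN2)
      intro r' hr'
      obtain ⟨hr1, hr2⟩ := Finset.mem_filter.1 hr'
      refine Finset.mem_filter.2 ⟨hr1, ?_⟩
      exact unk_congr hok hN2 (Λ := n') (by
        show (hs i).1 + 3 * M + 10 ≤ Λ0 + 3 * M + 10
        have := hΛ0 i hi
        omega) hw (mem_strings.1 hr1) hr2

end Pool.Agent.Er9
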