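import Mathlib
import Pool.Agent.H9.Er2.Step2

/-!
# The diagonal construction
-/

set_option autoImplicit false
set_option linter.unusedSectionVars false

namespace Pool.Agent.Er9

open Pool.Agent.H59.Er Classical
open Pool.Agent.H9 (Qn Hr Mr Oracle)

theorem lenOk_dfl : LenOk Sg.dfl := by
  intro v
  unfold Sg.dfl
  rw [List.length_replicate]

/-- The empty table. -/
noncomputable def tbl0 : Tbl where
  A := fun v _ => {Sg.dfl v}
  W := Sg.dfl
  mem := fun _ _ => rfl
  len := lenOk_dfl

/-- **The diagonal construction.** -/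
theorem exists_tbl (FT : ℕ → ℕ → ℕ → ℕ)
    (hFT : ∀ k i, ∀ c > 0, ∃ n1, ∀ n ≥ n1, FT k i n ≤ 2 ^ (n / (c * Nat.log 2 n ^ (k + 1))))
    (g : ℕ → Qn) (hs : ℕ → Hr) (rs : ℕ → Mr) :
    ∃ (T : Tbl) (m : ℕ → ℕ), (∀ s, s ≤ m s) ∧ (∀ s, FailsE (FT (rs s).2.1) g (rs s) T) ∧
      ∀ s, GoodE g hs s (m s) (m (s + 1)) (orc g T) := by
  choose nxt hnxt1 hnxt2 hnxt3 hnxt4 using fun (s : ℕ) (st : Stt) =>
    step_exists2 FT hFT g hs (rs s) s st
  let st0 : Stt := ⟨tbl0, 0, 0, fun _ _ _ => rfl⟩
  let seq : ℕ → Stt := fun s => Nat.rec st0 (fun s st => nxt s st) s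
  have hseq : ∀ s, seq (s + 1) = nxt s (seq s) := fun s => rfl
  have hn : ∀ s, s ≤ (seq s).n := by
    intro s
    induction s with
    | zero => exact Nat.zero_le _
    | succ s ih =>
      rw [hseq]
      have := hnxt2 s (seq s)
      omega
  have hm : ∀ s, s ≤ (seq s).m := by
    intro s
    induction s with
    | zero => exact Nat.zero_le _
    | succ s ih =>
      rw [hseq]
      have := hnxt3 s (seq s)
      omega
  have hnmono : ∀ s t, s ≤ t → (seq s).n ≤ (seq t).n := by
    intro s t hst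
    induction t, hst using Nat.le_induction with
    | base => exact le_rfl
    | succ t _ ih =>
      rw [hseq]
      have := hnxt2 t (seq t)
      omega
  have hag : ∀ s t, s ≤ t → ∀ v : Nd, v.2.1.length < (seq s).n →
      (seq t).T.W v = (seq s).T.W v ∧ (seq t).T.A v = (seq s).T.A v := by
    intro s t hst
    induction t, hst using Nat.le_induction with
    | base => intro v _; exact ⟨rfl, rfl⟩
    | succ t hst ih =>
      intro v hv
      have h1 := hnxt1 t (seq t) v (lt_of_lt_of_le hv (hnmono s t hst))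
      rw [hseq]
      exact ⟨h1.1.trans (ih v hv).1, h1.2.trans (ih v hv).2⟩
  let T : Tbl :=
    { A := fun v => (seq (v.2.1.length + 1)).T.A v
      W := fun v => (seq (v.2.1.length + 1)).T.W v
      mem := fun v N => (seq (v.2.1.length + 1)).T.mem v N
      len := fun v => (seq (v.2.1.length + 1)).T.len v }
  have hT : ∀ s, ∀ v : Nd, v.2.1.length < (seq s).n →
      T.W v = (seq s).T.W v ∧ T.A v = (seq s).T.A v := by
    intro s v hv
    show (seq (v.2.1.length + 1)).T.W v = (seq s).T.W v ∧
      (seq (v.2.1.length + 1)).T.A v = (seq s).T.A v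
    rcases Nat.le_total s (v.2.1.length + 1) with h | h
    · exact hag s _ h v hv
    · have h1 := hag _ s h v (by
        have := hn (v.2.1.length + 1)
        omega)
      exact ⟨h1.1.symm, h1.2.symm⟩
  refine ⟨T, fun s => (seq s).m, hm, fun s => ?_, fun s => ?_⟩
  · exact (hnxt4 s (seq s) T (hT (s + 1))).1
  · exact (hnxt4 s (seq s) T (hT (s + 1))).2

end Pool.Agent.Er9
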