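import Mathlib
import Pool.Agent.H9.Heur
import Pool.Agent.H9.AvgDefs

/-!
# The errorless heuristic algorithm

It writes down the code of the question and asks whether the answer is certainly yes, then whether
it is certainly no.
-/

set_option autoImplicit false

namespace Pool.Agent.Er9

open Pool.Agent.H9 Classical

/-- The heuristic algorithm. -/
def heur2 (e c : ℕ) : Prog :=
  seqs [mkCode2 e c, Prog.push 2 true, Prog.push 2 true,
    Prog.ask 2 (Prog.push 0 true)
      (seqs [Prog.pop 2, Prog.pop 2, Prog.push 2 false, Prog.push 2 true,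
        Prog.ask 2 (Prog.push 0 false) Prog.skip])]

/-- The output of the heuristic algorithm. -/
noncomputable def out2 (A : Oracle) (e c : ℕ) (y x : List Bool) : List Bool :=
  if A (true :: true :: code e x ((y.length + 2) ^ 2 ^ c)) = true then [true]
  else if A (true :: false :: code e x ((y.length + 2) ^ 2 ^ c)) = true then [false] else []

theorem run_heur2 (A : Oracle) (e c : ℕ) (y x : List Bool) :
    ∃ s', run A (heur2 e c) [y, x] (codeTime2 e c y.length x.length + 30) = ([], s') ∧
      s' 0 = out2 A e c y x := by
  obtain ⟨s1, h1, h2, h3⟩ := exec_mkCode2 A e c (fun i => [y, x].getD i []) (by simp) (by simp)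
    (by simp) (by simp)
  have h1' : Exec A (mkCode2 e c) (fun i => [y, x].getD i []) s1
      (codeTime2 e c y.length x.length) := by simpa using h1
  have h2' : s1 2 = code e x ((y.length + 2) ^ 2 ^ c) := by simpa using h2
  set C := code e x ((y.length + 2) ^ 2 ^ c) with hC
  have e1 := exec_push A s1 2 true
  set s2 := Function.update s1 2 (true :: s1 2) with hs2
  have e2 := exec_push A s2 2 true
  set s3 := Function.update s2 2 (true :: s2 2) with hs3
  have g3 : s3 2 = true :: true :: C := by
    rw [hs3, Function.update_self, hs2, Function.update_self, h2']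
  have g0 : s3 0 = [] := by
    rw [hs3, Function.update_of_ne (by norm_num), hs2, Function.update_of_ne (by norm_num), h3]
  by_cases h : A (true :: true :: C) = true
  · refine ⟨Function.update s3 0 (true :: s3 0), run_of_exec ?_, ?_⟩
    · unfold heur2
      have e3 : Exec A (Prog.ask 2 (Prog.push 0 true)
          (seqs [Prog.pop 2, Prog.pop 2, Prog.push 2 false, Prog.push 2 true,
            Prog.ask 2 (Prog.push 0 false) Prog.skip])) s3
          (Function.update s3 0 (true :: s3 0)) (1 + 1) := by
        apply exec_ask
        rw [g3, if_pos h]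
        exact exec_push A s3 0 true
      exact (exec_seqs_cons h1' (exec_seqs_cons e1 (exec_seqs_cons e2 (exec_seqs_cons e3
        (exec_seqs_nil _ _))))).mono (by omega)
    · rw [Function.update_self, g0]
      unfold out2
      rw [if_pos h]
  · have e4 := exec_pop A s3 2
    set s4 := Function.update s3 2 (s3 2).tail with hs4
    have e5 := exec_pop A s4 2
    set s5 := Function.update s4 2 (s4 2).tail with hs5
    have e6 := exec_push A s5 2 false
    set s6 := Function.update s5 2 (false :: s5 2) with hs6
    have e7 := exec_push A s6 2 true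
    set s7 := Function.update s6 2 (true :: s6 2) with hs7
    have g7 : s7 2 = true :: false :: C := by
      rw [hs7, Function.update_self, hs6, Function.update_self, hs5, Function.update_self, hs4,
        Function.update_self, g3]
      rfl
    have g70 : s7 0 = [] := by
      rw [hs7, Function.update_of_ne (by norm_num), hs6, Function.update_of_ne (by norm_num), hs5,
        Function.update_of_ne (by norm_num), hs4, Function.update_of_ne (by norm_num), g0]
    have key : ∃ s8, Exec A (Prog.ask 2 (Prog.push 0 false) Prog.skip) s7 s8 (1 + 1) ∧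
        s8 0 = out2 A e c y x := by
      by_cases h' : A (true :: false :: C) = true
      · refine ⟨Function.update s7 0 (false :: s7 0), ?_, ?_⟩
        · apply exec_ask
          rw [g7, if_pos h']
          exact exec_push A s7 0 false
        · rw [Function.update_self, g70]
          unfold out2
          rw [if_neg h, if_pos h']
      · refine ⟨s7, ?_, ?_⟩
        · apply exec_ask
          rw [g7, if_neg h']
          exact exec_skip A s7
        · rw [g70]
          unfold out2
          rw [if_neg h, if_neg h']
    obtain ⟨s8, e8, h8⟩ := key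
    refine ⟨s8, run_of_exec ?_, h8⟩
    have e9 := exec_seqs_cons e4 (exec_seqs_cons e5 (exec_seqs_cons e6 (exec_seqs_cons e7
      (exec_seqs_cons e8 (exec_seqs_nil _ _)))))
    have e10 : Exec A (Prog.ask 2 (Prog.push 0 true)
          (seqs [Prog.pop 2, Prog.pop 2, Prog.push 2 false, Prog.push 2 true,
            Prog.ask 2 (Prog.push 0 false) Prog.skip])) s3 s8
          ((1 + (1 + (1 + (1 + (1 + 1 + 1 + 1) + 1) + 1) + 1) + 1) + 1) := by
      apply exec_ask
      rw [g3, if_neg h]
      exact e9
    unfold heur2
    exact (exec_seqs_cons h1' (exec_seqs_cons e1 (exec_seqs_cons e2 (exec_seqs_cons e10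
      (exec_seqs_nil _ _))))).mono (by omega)

theorem polyTime_heur2 (A : Oracle) (e c : ℕ) : PolyTime A 2 (heur2 e c) := by
  refine ⟨Polynomial.C c * (20 * ((Polynomial.X + 2) ^ 2 ^ c + 1) *
      ((Polynomial.X + 2) ^ 2 ^ c + 1) + 1) + 20 * Polynomial.X + 20 * Polynomial.X +
      Polynomial.C (2 * e + 70), ?_⟩
  intro xs hxs
  obtain ⟨y, x, rfl⟩ := List.length_eq_two.1 hxs
  obtain ⟨s', h1, _⟩ := run_heur2 A e c y x
  have h2 : (run A (heur2 e c) [y, x] (codeTime2 e c y.length x.length + 30)).1 = [] := by
    rw [h1]
  rw [run_of_halted h2]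
  · exact h2
  · have h3 : totalLength [y, x] = y.length + x.length := by simp [totalLength]
    rw [h3]
    simp only [Polynomial.eval_add, Polynomial.eval_mul, Polynomial.eval_X,
        Polynomial.eval_ofNat, Polynomial.eval_C, Polynomial.eval_pow, Polynomial.eval_one,
        codeTime2]
    have h4 : (y.length + 2) ^ 2 ^ c ≤ (y.length + x.length + 2) ^ 2 ^ c :=
      Nat.pow_le_pow_left (by omega) _
    have h5 : c * (20 * ((y.length + 2) ^ 2 ^ c + 1) * ((y.length + 2) ^ 2 ^ c + 1) + 1) ≤
        c * (20 * ((y.length + x.length + 2) ^ 2 ^ c + 1) *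
          ((y.length + x.length + 2) ^ 2 ^ c + 1) + 1) := by
      gcongr
    omega

theorem outputs_heur2 (A : Oracle) (e c : ℕ) (y x z : List Bool) :
    Outputs A (heur2 e c) [y, x] z ↔ z = out2 A e c y x := by
  obtain ⟨s', h1, h2⟩ := run_heur2 A e c y x
  have h3 : (run A (heur2 e c) [y, x] (codeTime2 e c y.length x.length + 30)).1 = [] := by
    rw [h1]
  constructor
  · rintro ⟨t, ht, hz⟩
    rw [← hz, ← h2]
    rcases Nat.le_total t (codeTime2 e c y.length x.length + 30) with h | h
    · have h4 := run_of_halted ht h
      rw [← h4, h1]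
    · have h4 := run_of_halted h3 h
      rw [h4, h1]
  · intro hz
    exact ⟨_, h3, by rw [h1, hz]; exact h2⟩

end Pool.Agent.Er9
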