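import Mathlib
import Pool.Agent.H59.Er.World

/-!
# The hard languages are unambiguous alternating

The language `Lg W (k + 1) b` belongs to the level `k + 1` of unambiguous alternation relative to
the oracle given by the world `W`.
-/

set_option autoImplicit false
set_option linter.unusedSectionVars false

namespace Pool.Agent.Er9

open Pool.Agent.H9 Pool.Agent.H59.Er Classical
open Pool.Agent.H8u (Unamb AUSigmaP)

theorem alt_congr {k m : ℕ} {ex : Bool} {φ ψ : List (List Bool) → Prop}
    (h : ∀ us : List (List Bool), us.map List.length = List.replicate k m → (φ us ↔ ψ us)) :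
    Alt ex k m φ ↔ Alt ex k m ψ := by
  rw [Alt_eq, Alt_eq]
  exact AltL_congr h

theorem unamb_congr : ∀ {k m : ℕ} {ex : Bool} {φ ψ : List (List Bool) → Prop},
    (∀ us : List (List Bool), us.map List.length = List.replicate k m → (φ us ↔ ψ us)) →
    Unamb ex k m φ → Unamb ex k m ψ := by
  intro k
  induction k with
  | zero => intro m ex φ ψ _ _; trivial
  | succ k ih =>
    intro m ex φ ψ h hu
    have h1 : ∀ u : List Bool, u.length = m → ∀ us : List (List Bool),
        us.map List.length = List.replicate k m → (φ (u :: us) ↔ ψ (u :: us)) := by
      intro u hu us hus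
      apply h
      rw [List.map_cons, hu, hus, List.replicate_succ]
    refine ⟨?_, fun u hu' => ih (h1 u hu') (hu.2 u hu')⟩
    intro u v hu' hv' h2 h3
    apply hu.1 u v hu' hv'
    · rw [alt_congr (h1 u hu')]; exact h2
    · rw [alt_congr (h1 v hv')]; exact h3

/-- The value of a subtree. -/
theorem alt_alive {n : ℕ} (pt : List (List Bool) → List Bool)
    (hpt : ∀ ps, ps ≠ [] → (pt ps).length = n) : ∀ (j : ℕ) (ps : List (List Bool)), ps ≠ [] →
    (Alt false j n (fun us => (alive pt (us.reverse ++ ps) = true ↔ j.bodd = false)) ↔
      alive pt ps = true) ∧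
    (Alt true j n (fun us => (alive pt (us.reverse ++ ps) = true ↔ j.bodd = true)) ↔
      alive pt ps = false) := by
  intro j
  induction j with
  | zero =>
    intro ps _
    constructor
    · show ((alive pt ([].reverse ++ ps) = true ↔ Nat.bodd 0 = false)) ↔ _
      simp
    · show ((alive pt ([].reverse ++ ps) = true ↔ Nat.bodd 0 = true)) ↔ _
      simp
  | succ j ih =>
    intro ps hps
    have e1 : ∀ (u : List Bool) (us : List (List Bool)),
        (u :: us).reverse ++ ps = us.reverse ++ (u :: ps) := by
      intro u us
      rw [List.reverse_cons, List.append_assoc, List.singleton_append]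
    constructor
    · show (∀ u : List Bool, u.length = n → Alt true j n
        (fun us => (alive pt ((u :: us).reverse ++ ps) = true ↔ (j + 1).bodd = false))) ↔ _
      have e2 : ∀ u : List Bool, (Alt true j n
        (fun us => (alive pt ((u :: us).reverse ++ ps) = true ↔ (j + 1).bodd = false)) ↔
          alive pt (u :: ps) = false) := by
        intro u
        rw [← (ih (u :: ps) (by simp)).2]
        apply alt_congr
        intro us _
        rw [e1, Nat.bodd_succ]
        cases j.bodd <;> simp
      simp only [e2]
      constructor
      · intro h
        by_contra hcon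
        have h1 : alive pt ps = false := by simpa using hcon
        have h2 := h (pt ps) (hpt ps hps)
        have h3 : alive pt (pt ps :: ps) = true := by
          show (!alive pt ps && decide (pt ps = pt ps)) = true
          rw [h1]
          simp
        rw [h2] at h3
        simp at h3
      · intro h u _
        show (!alive pt ps && decide (pt ps = u)) = false
        rw [h]
        simp
    · show (∃ u : List Bool, u.length = n ∧ Alt false j n
        (fun us => (alive pt ((u :: us).reverse ++ ps) = true ↔ (j + 1).bodd = true))) ↔ _
      have e2 : ∀ u : List Bool, (Alt false j n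
        (fun us => (alive pt ((u :: us).reverse ++ ps) = true ↔ (j + 1).bodd = true)) ↔
          alive pt (u :: ps) = true) := by
        intro u
        rw [← (ih (u :: ps) (by simp)).1]
        apply alt_congr
        intro us _
        rw [e1, Nat.bodd_succ]
        cases j.bodd <;> simp
      simp only [e2]
      constructor
      · rintro ⟨u, _, h⟩
        have h1 : (!alive pt ps && decide (pt ps = u)) = true := h
        rw [Bool.and_eq_true] at h1
        simpa using h1.1
      · intro h
        refine ⟨pt ps, hpt ps hps, ?_⟩
        show (!alive pt ps && decide (pt ps = pt ps)) = true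
        rw [h]
        simp

theorem unamb_alive {n : ℕ} (pt : List (List Bool) → List Bool)
    (hpt : ∀ ps, ps ≠ [] → (pt ps).length = n) : ∀ (j : ℕ) (ps : List (List Bool)), ps ≠ [] →
    Unamb false j n (fun us => (alive pt (us.reverse ++ ps) = true ↔ j.bodd = false)) ∧
    Unamb true j n (fun us => (alive pt (us.reverse ++ ps) = true ↔ j.bodd = true)) := by
  intro j
  induction j with
  | zero => intro ps _; exact ⟨trivial, trivial⟩
  | succ j ih =>
    intro ps hps
    have e1 : ∀ (u : List Bool) (us : List (List Bool)),
        (u :: us).reverse ++ ps = us.reverse ++ (u :: ps) := by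
      intro u us
      rw [List.reverse_cons, List.append_assoc, List.singleton_append]
    have hal : ∀ u v : List Bool, alive pt (u :: ps) = true → alive pt (v :: ps) = true →
        u = v := by
      intro u v h1 h2
      have h3 : (!alive pt ps && decide (pt ps = u)) = true := h1
      have h4 : (!alive pt ps && decide (pt ps = v)) = true := h2
      rw [Bool.and_eq_true, decide_eq_true_eq] at h3 h4
      rw [← h3.2, ← h4.2]
    constructor
    · have e2 : ∀ (u : List Bool) (us : List (List Bool)),
          ((alive pt ((u :: us).reverse ++ ps) = true ↔ (j + 1).bodd = false) ↔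
            (alive pt (us.reverse ++ (u :: ps)) = true ↔ j.bodd = true)) := by
        intro u us
        rw [e1, Nat.bodd_succ]
        cases j.bodd <;> simp
      refine ⟨?_, fun u _ => unamb_congr (fun us _ => (e2 u us).symm) (ih (u :: ps) (by simp)).2⟩
      intro u v _ _ h1 h2
      rw [alt_congr (fun us _ => e2 u us), Bool.not_false,
        (alt_alive pt hpt j (u :: ps) (by simp)).2] at h1
      rw [alt_congr (fun us _ => e2 v us), Bool.not_false,
        (alt_alive pt hpt j (v :: ps) (by simp)).2] at h2
      apply hal
      · by_contra hcon
        have h3 : alive pt (u :: ps) = false := by simpa using hcon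
        exact absurd (h1.1 h3) (by simp)
      · by_contra hcon
        have h3 : alive pt (v :: ps) = false := by simpa using hcon
        exact absurd (h2.1 h3) (by simp)
    · have e2 : ∀ (u : List Bool) (us : List (List Bool)),
          ((alive pt ((u :: us).reverse ++ ps) = true ↔ (j + 1).bodd = true) ↔
            (alive pt (us.reverse ++ (u :: ps)) = true ↔ j.bodd = false)) := by
        intro u us
        rw [e1, Nat.bodd_succ]
        cases j.bodd <;> simp
      refine ⟨?_, fun u _ => unamb_congr (fun us _ => (e2 u us).symm) (ih (u :: ps) (by simp)).1⟩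
      intro u v _ _ h1 h2
      rw [alt_congr (fun us _ => e2 u us), Bool.not_true,
        (alt_alive pt hpt j (u :: ps) (by simp)).1] at h1
      rw [alt_congr (fun us _ => e2 v us), Bool.not_true,
        (alt_alive pt hpt j (v :: ps) (by simp)).1] at h2
      exact hal u v (h1.2 rfl) (h2.2 rfl)

/-- The condition at the leaves. -/
def leafc (W : World) (k : ℕ) (b : Bool) (x : List Bool) (us : List (List Bool)) : Prop :=
  (alive (fun ps => W (k + 1, x, ps)) (rpath b us) = true ↔ k.bodd = false)

theorem lg_alt {W : World} (h : LenOk W) (k : ℕ) (b : Bool) (x : List Bool) :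
    (x ∈ Lg W (k + 1) b ↔ Alt true (k + 1) x.length (leafc W k b x)) ∧
      Unamb true (k + 1) x.length (leafc W k b x) := by
  set pt : List (List Bool) → List Bool := fun ps => W (k + 1, x, ps) with hpt
  have h1 : ∀ ps, ps ≠ [] → (pt ps).length = x.length := by
    intro ps hps
    have := h (k + 1, x, ps)
    rw [if_neg hps] at this
    exact this
  have h0 : (pt []).length = x.length + 1 := by
    have := h (k + 1, x, [])
    rw [if_pos rfl] at this
    exact this
  have hroot : ∀ u : List Bool, (alive pt [b :: u] = true ↔ pt [] = b :: u) := by
    intro u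
    show (!alive pt [] && decide (pt [] = b :: u)) = true ↔ _
    have : alive pt [] = false := rfl
    rw [this]
    simp
  have e0 : ∀ u : List Bool, (Alt false k x.length (fun us => leafc W k b x (u :: us)) ↔
      alive pt [b :: u] = true) := fun u => (alt_alive pt h1 k [b :: u] (by simp)).1
  constructor
  · show _ ↔ ∃ u : List Bool, u.length = x.length ∧
      Alt false k x.length (fun us => leafc W k b x (u :: us))
    simp only [e0, hroot]
    show (pt []).head? = some b ↔ _
    constructor
    · intro h2
      cases hp : pt [] with
      | nil => rw [hp] at h2; simp at h2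
      | cons c u =>
        rw [hp] at h2 h0
        simp only [List.head?_cons, Option.some.injEq] at h2
        subst h2
        exact ⟨u, by simpa using h0, rfl⟩
    · rintro ⟨u, _, h2⟩
      rw [h2]
      rfl
  · refine ⟨?_, fun u _ => (unamb_alive pt h1 k [b :: u] (by simp)).1⟩
    intro u v _ _ h2 h3
    have h4 := (hroot u).1 ((e0 u).1 (h2.2 rfl))
    have h5 := (hroot v).1 ((e0 v).1 (h3.2 rfl))
    rw [h4, List.cons.injEq] at h5
    exact h5.2

/-- The program that reads the oracle bit at a path. -/
def readP (k : ℕ) (b : Bool) : Prog :=
  seqs [moves (k + 2) (List.range (k + 2)), Prog.push (k + 2) b, Prog.push (k + 2) false,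
    seqs (List.replicate (k + 1) (Prog.push (k + 2) true)), Prog.push (k + 2) false,
    Prog.ask (k + 2) (if k.bodd then Prog.skip else Prog.push 0 true)
      (if k.bodd then Prog.push 0 true else Prog.skip)]

theorem run_readP (A : Oracle) (k : ℕ) (b : Bool) (x : List Bool) (us : List (List Bool))
    (hus : us.length = k + 1) :
    ∃ s', run A (readP k b) (x :: us) (30 * totalLength (x :: us) + (20 * k + 80)) = ([], s') ∧
      ((s' 0).head? = some true ↔
        (A (false :: lword (k + 1) b x us) = true ↔ k.bodd = false)) := by
  have hlen : (x :: us).length = k + 2 := by simp [hus]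
  obtain ⟨s1, e1, h1, h2⟩ := exec_moves A (k + 2) (List.range (k + 2)) List.nodup_range (by
    simp) (fun i => (x :: us).getD i [])
  have hmap : (List.range (k + 2)).map (fun i => (x :: us).getD i []) = x :: us := by
    rw [← hlen]; exact map_range_getD _
  rw [hmap] at e1 h1
  -- stack 0 after the moves
  have h0 : s1 0 = [] := by
    obtain ⟨t1, f1, f2, f3, f4⟩ := exec_moveAll A (i := 0) (j := k + 2) (by omega)
      (fun i => (x :: us).getD i [])
    obtain ⟨t2, f5, f6, f7⟩ := exec_moves A (k + 2) (List.range' 1 (k + 1)) List.nodup_range' (by
      simp [List.mem_range']; omega) t1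
    have g1 := f1.seq f5
    have g2 : Prog.seq (moveAll 0 (k + 2)) (moves (k + 2) (List.range' 1 (k + 1))) =
        moves (k + 2) (List.range (k + 2)) := by
      rw [List.range_eq_range', List.range'_succ]
      rfl
    rw [g2] at g1
    have g3 : s1 = t2 := by
      obtain ⟨a, _, ha⟩ := e1
      obtain ⟨b, _, hb⟩ := g1
      have ha' := ha []
      have hb' := hb []
      rcases Nat.le_total a b with hab | hab
      · have := iterate_of_halted (A := A) (c := ([moves (k + 2) (List.range (k + 2))],
          fun i => (x :: us).getD i [])) (n := a) (m := b) (by rw [ha']) hab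
        rw [ha', hb'] at this
        exact (congrArg Prod.snd this).symm
      · have := iterate_of_halted (A := A) (c := ([moves (k + 2) (List.range (k + 2))],
          fun i => (x :: us).getD i [])) (n := b) (m := a) (by rw [hb']) hab
        rw [ha', hb'] at this
        exact congrArg Prod.snd this
    rw [g3, f7 0 (by simp [List.mem_range']; omega) (by omega), f2]
  have hW : s1 (k + 2) = (x :: us).flatten.reverse := by
    rw [h1]
    have : (x :: us).getD (k + 2) [] = [] := by
      rw [List.getD_eq_getElem?_getD, List.getElem?_eq_none (by omega)]
      rfl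
    rw [this, List.append_nil]
  have e2 := exec_push A s1 (k + 2) b
  set s2 := Function.update s1 (k + 2) (b :: s1 (k + 2)) with hs2
  have hs2W : s2 (k + 2) = b :: (x :: us).flatten.reverse := by
    rw [hs2, Function.update_self, hW]
  have hs20 : s2 0 = [] := by
    rw [hs2, Function.update_of_ne (by omega), h0]
  have e3 := exec_push A s2 (k + 2) false
  set s3 := Function.update s2 (k + 2) (false :: s2 (k + 2)) with hs3
  have hs3W : s3 (k + 2) = false :: b :: (x :: us).flatten.reverse := by
    rw [hs3, Function.update_self, hs2W]
  have hs30 : s3 0 = [] := by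
    rw [hs3, Function.update_of_ne (by omega), hs20]
  obtain ⟨s4, e4, a1, a2⟩ := exec_pushes A (k + 2) (k + 1) s3
  have hs40 : s4 0 = [] := by rw [a2 0 (by omega), hs30]
  rw [hs3W] at a1
  have e5 := exec_push A s4 (k + 2) false
  set s5 := Function.update s4 (k + 2) (false :: s4 (k + 2)) with hs5
  have hs5W : s5 (k + 2) = false :: lword (k + 1) b x us := by
    rw [hs5, Function.update_self, a1]
    rfl
  have hs50 : s5 0 = [] := by
    rw [hs5, Function.update_of_ne (by omega), hs40]
  have e6 : ∃ s6, Exec A (Prog.ask (k + 2) (if k.bodd then Prog.skip else Prog.push 0 true)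
      (if k.bodd then Prog.push 0 true else Prog.skip)) s5 s6 2 ∧
      ((s6 0).head? = some true ↔
        (A (false :: lword (k + 1) b x us) = true ↔ k.bodd = false)) := by
    by_cases h : A (s5 (k + 2)) = true
    · rw [hs5W] at h
      cases hk : k.bodd with
      | true =>
        refine ⟨s5, ?_, ?_⟩
        · apply exec_ask
          rw [hs5W, if_pos h]
          simpa using exec_skip A s5
        · rw [hs50, h]
          simp
      | false =>
        refine ⟨Function.update s5 0 (true :: s5 0), ?_, ?_⟩
        · apply exec_ask
          rw [hs5W, if_pos h]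
          simpa using exec_push A s5 0 true
        · rw [Function.update_self, h]
          simp
    · rw [hs5W] at h
      cases hk : k.bodd with
      | true =>
        refine ⟨Function.update s5 0 (true :: s5 0), ?_, ?_⟩
        · apply exec_ask
          rw [hs5W, if_neg h]
          simpa using exec_push A s5 0 true
        · rw [Function.update_self]
          simp [h]
      | false =>
        refine ⟨s5, ?_, ?_⟩
        · apply exec_ask
          rw [hs5W, if_neg h]
          simpa using exec_skip A s5
        · rw [hs50]
          simp [h]
  obtain ⟨s6, e6, h6⟩ := e6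
  refine ⟨s6, run_of_exec ?_, h6⟩
  have e7 := exec_seqs_cons e1 (exec_seqs_cons e2 (exec_seqs_cons e3 (exec_seqs_cons e4
    (exec_seqs_cons e5 (exec_seqs_cons e6 (exec_seqs_nil _ _))))))
  unfold readP
  refine e7.mono ?_
  have h7 : totalLength (x :: us) = ((x :: us).map List.length).sum := rfl
  rw [h7, List.length_range]
  omega

theorem lg_mem (W : World) (κ : Oracle) (h : LenOk W) (k : ℕ) (b : Bool) :
    Lg W (k + 1) b ∈ AUSigmaP (comb W κ) (k + 1) := by
  have hacc : ∀ (x : List Bool) (us : List (List Bool)),
      us.map List.length = List.replicate (k + 1) x.length →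
      (Accepts (comb W κ) (readP k b) (x :: us) ↔ leafc W k b x us) := by
    intro x us hus
    have hlen : us.length = k + 1 := by
      have := congrArg List.length hus
      simpa using this
    obtain ⟨s', h1, h2⟩ := run_readP (comb W κ) k b x us hlen
    have h3 : (run (comb W κ) (readP k b) (x :: us)
        (30 * totalLength (x :: us) + (20 * k + 80))).1 = [] := by rw [h1]
    rw [accepts_iff_of_halted h3]
    unfold AcceptsIn
    rw [h1]
    simp only [true_and]
    rw [h2]
    have h4 : comb W κ (false :: lword (k + 1) b x us) = leafb W (lword (k + 1) b x us) := rfl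
    rw [h4, leafb_lword W hus]
    exact Iff.rfl
  refine ⟨Polynomial.X, readP k b, ?_, ?_⟩
  · refine ⟨30 * Polynomial.X + Polynomial.C (20 * k + 80), ?_⟩
    intro xs hxs
    cases xs with
    | nil => simp at hxs
    | cons x us =>
      have hus : us.length = k + 1 := by simpa using hxs
      obtain ⟨s', h1, _⟩ := run_readP (comb W κ) k b x us hus
      have h2 : (30 * Polynomial.X + Polynomial.C (20 * k + 80) : Polynomial ℕ).eval
          (totalLength (x :: us)) = 30 * totalLength (x :: us) + (20 * k + 80) := by
        simp
      rw [h2, h1]
  · intro x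
    rw [Polynomial.eval_X]
    obtain ⟨h1, h2⟩ := lg_alt h k b x
    constructor
    · rw [h1]
      apply alt_congr
      intro us hus
      exact (hacc x us hus).symm
    · exact unamb_congr (fun us hus => (hacc x us hus).symm) h2

end Pool.Agent.Er9
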