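import Mathlib
import Pool.Agent.H9.AvgFinal
import Pool.Agent.H9.Er2.LG
import Pool.Agent.H9.Er2.Heur2
import Pool.Agent.H9.Er2.Diag3

/-!
# Conclusion
-/

set_option autoImplicit false
set_option linter.unusedSectionVars false

namespace Pool.Agent.Er9

open Pool.Agent.H59.Er Classical
open Pool.Agent.H9 (Qn Hr Mr Oracle Prog SigmaP AltTime Alt AcceptsIn Accepts PolyTime Outputs
  totalLength run strings mem_strings code inp)
open Pool.Agent.H8u (Unamb AUSigmaP)

theorem auSigmaP_subset (A : Oracle) (k : ℕ) : AUSigmaP A k ⊆ SigmaP A k := by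
  rintro L ⟨q, p, h1, h2⟩
  exact ⟨q, p, h1, fun x => (h2 x).1⟩

theorem pow_le_two_pow (C k : ℕ) : ∃ x0, ∀ x ≥ x0, C * x ^ k ≤ 2 ^ x := by
  have h := tendsto_pow_const_div_const_pow_of_one_lt k (show (1 : ℝ) < 2 by norm_num)
  have hpos : (0 : ℝ) < 1 / ((C : ℝ) + 1) := by positivity
  obtain ⟨x0, hx0⟩ := (h.eventually (gt_mem_nhds hpos)).exists_forall_of_atTop
  refine ⟨x0, fun x hx => ?_⟩
  have h1 := hx0 x hx
  have h2 : (x : ℝ) ^ k * ((C : ℝ) + 1) < 2 ^ x := by
    rw [div_lt_div_iff₀ (by positivity) (by positivity)] at h1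
    linarith
  have h3 : (C : ℝ) * (x : ℝ) ^ k ≤ 2 ^ x := by
    have h4 : (0 : ℝ) ≤ (x : ℝ) ^ k := by positivity
    nlinarith
  exact_mod_cast h3

theorem poly_small2 (P : Polynomial ℕ) (k : ℕ) : ∀ r > 0, ∃ n1, ∀ n ≥ n1,
    P.eval n ≤ 2 ^ (n / (r * Nat.log 2 n ^ (k + 1))) := by
  intro r hr
  obtain ⟨c, hc⟩ := Pool.Agent.H9.poly_le_pow P
  obtain ⟨x0, hx0⟩ := pow_le_two_pow (3 * 2 ^ c * r) (k + 2)
  refine ⟨2 ^ (x0 + 1), fun n hn => ?_⟩
  have hn0 : n ≠ 0 := by
    have := Nat.one_le_two_pow (n := x0 + 1)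
    omega
  have hl : x0 + 1 ≤ Nat.log 2 n := Nat.le_log_of_pow_le (by norm_num) hn
  obtain ⟨l, hl'⟩ : ∃ l, l = Nat.log 2 n := ⟨_, rfl⟩
  have h1 : n < 2 ^ (l + 1) := by rw [hl']; exact Nat.lt_pow_succ_log_self (by norm_num) n
  have h2 : 2 ^ l ≤ n := by rw [hl']; exact Nat.pow_log_le_self 2 hn0
  rw [← hl'] at hl ⊢
  have h3 : 3 * 2 ^ c * r * l ^ (k + 2) ≤ 2 ^ l := hx0 l (by omega)
  have h4 : n + 2 ≤ 2 ^ (l + 2) := by
    rw [pow_succ 2 (l + 1)]
    have := Nat.one_le_two_pow (n := l + 1)
    have : 2 ^ 1 ≤ 2 ^ (l + 1) := Nat.pow_le_pow_right (by norm_num) (by omega)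
    omega
  calc P.eval n ≤ (n + 2) ^ 2 ^ c := hc n
    _ ≤ (2 ^ (l + 2)) ^ 2 ^ c := Nat.pow_le_pow_left h4 _
    _ = 2 ^ ((l + 2) * 2 ^ c) := by rw [← pow_mul]
    _ ≤ 2 ^ (n / (r * l ^ (k + 1))) := by
        apply Nat.pow_le_pow_right (by norm_num)
        rw [Nat.le_div_iff_mul_le (Nat.mul_pos hr (Nat.pow_pos (by omega)))]
        refine le_trans ?_ (h3.trans h2)
        calc (l + 2) * 2 ^ c * (r * l ^ (k + 1)) ≤ (3 * l) * 2 ^ c * (r * l ^ (k + 1)) := by
              apply Nat.mul_le_mul_right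
              apply Nat.mul_le_mul_right
              omega
          _ = 3 * 2 ^ c * r * l ^ (k + 2) := by ring

/-- The complement of a hard language. -/
theorem lg_compl {W : World} (h : LenOk W) (k : ℕ) :
    (Lg W (k + 1) true)ᶜ = Lg W (k + 1) false := by
  ext x
  have h0 := h (k + 1, x, [])
  rw [if_pos rfl] at h0
  rw [Set.mem_compl_iff]
  show ¬ ((W (k + 1, x, [])).head? = some true) ↔ (W (k + 1, x, [])).head? = some false
  cases hW : W (k + 1, x, []) with
  | nil => rw [hW] at h0; simp at h0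
  | cons c u => cases c <;> simp

/-- **Main theorem.** Relative to some oracle `A` the polynomial hierarchy is infinite: for every
`k` some language belongs together with its complement to the level `k + 1` of unambiguous
alternation, but is not decided by alternating machines with `k` blocks within the given bounds
`2 ^ o(n / (log n) ^ (k + 1))`; but every distributional problem in the hierarchy has an errorless
heuristic scheme. -/
theorem errorless (T : ℕ → ℕ → ℕ → ℕ)
    (hT : ∀ k i, ∀ r > 0, ∃ n0, ∀ n ≥ n0, T k i n ≤ 2 ^ (n / (r * Nat.log 2 n ^ (k + 1)))) :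
    ∃ A : Oracle,
      (∀ k, SigmaP A k ⊂ SigmaP A (k + 1)) ∧
      (∀ k, ∃ L ∈ AUSigmaP A (k + 1), Lᶜ ∈ AUSigmaP A (k + 1) ∧
        ∀ e i j, L ∉ AltTime A e k (T k i) (T k j)) ∧
      ∀ k, ∀ L ∈ SigmaP A k, ∀ (G : Prog) (m : Polynomial ℕ), PolyTime A 2 G →
        ∃ B : Prog, PolyTime A 2 B ∧
          (∀ y x : List Bool, ∃ z, Outputs A B [y, x] z ∧
            (z = [] ∨ (z = [true] ∧ x ∈ L) ∨ (z = [false] ∧ x ∉ L))) ∧
          ∀ c, ∃ n0, ∀ n l, n0 ≤ n + l →
            (n + l) ^ c * Set.ncard {r : List Bool | r.length = m.eval n ∧ ∃ x : List Bool,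
              Outputs A G [List.replicate n true, r] x ∧
              Outputs A B [List.replicate (n + l) true, x] []} ≤ 2 ^ (m.eval n) := by
  have hcP : Countable (Polynomial ℕ) := Pool.Agent.H9.countable_poly
  have hcQ : Countable Qn := inferInstance
  have hcH : Countable Hr := inferInstance
  have hcM : Countable Mr := inferInstance
  have hneQ : Nonempty Qn := ⟨(Prog.skip, 0, 0, 0)⟩
  have hneH : Nonempty Hr := ⟨(0, Prog.skip, 0, 0, 0)⟩
  have hneM : Nonempty Mr := ⟨(Prog.skip, 0, 0, 0, true)⟩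
  obtain ⟨g, hg⟩ := exists_surjective_nat Qn
  obtain ⟨hs, hhs⟩ := exists_surjective_nat Hr
  obtain ⟨rs, hrs⟩ := exists_surjective_nat Mr
  obtain ⟨φ, hφ⟩ := exists_surjective_nat (ℕ ⊕ Polynomial ℕ)
  let FT : ℕ → ℕ → ℕ → ℕ := fun k i =>
    Sum.elim (fun j => T k j) (fun P n => P.eval n) (φ i)
  have hFT : ∀ k i, ∀ r > 0, ∃ n1, ∀ n ≥ n1,
      FT k i n ≤ 2 ^ (n / (r * Nat.log 2 n ^ (k + 1))) := by
    intro k i r hr
    show ∃ n1, ∀ n ≥ n1, Sum.elim (fun j => T k j) (fun (P : Polynomial ℕ) n => P.eval n) (φ i) n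
      ≤ 2 ^ (n / (r * Nat.log 2 n ^ (k + 1)))
    cases φ i with
    | inl j => exact hT k j r hr
    | inr P => exact poly_small2 P k r hr
  obtain ⟨Tb, m, hm, hfail, hgood⟩ := exists_tbl FT hFT g hs rs
  set A : Oracle := orc g Tb with hA
  have hAc : A = comb Tb.W (kap g Tb.A) := rfl
  have hmem : ∀ (k : ℕ) (b : Bool), Lg Tb.W (k + 1) b ∈ AUSigmaP A (k + 1) := by
    intro k b
    rw [hAc]
    exact lg_mem Tb.W _ Tb.len k b
  -- no machine decides the diagonal language
  have hno : ∀ (e : Bool) (k : ℕ) (a b : ℕ ⊕ Polynomial ℕ) (p : Prog),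
      ¬ ∀ x : List Bool, x ∈ Lg Tb.W (k + 1) true ↔
        Alt e k (Sum.elim (fun j => T k j) (fun (P : Polynomial ℕ) n => P.eval n) a x.length)
          (fun us => AcceptsIn A p (x :: us)
            (Sum.elim (fun j => T k j) (fun (P : Polynomial ℕ) n => P.eval n) b x.length)) := by
    intro e k a b p hall
    obtain ⟨ia, rfl⟩ := hφ a
    obtain ⟨ib, rfl⟩ := hφ b
    obtain ⟨s, hs'⟩ := hrs (p, k, ia, ib, e)
    obtain ⟨y, hy⟩ := hfail s
    rw [hs'] at hy
    exact hy (hall y).symm
  refine ⟨A, ?_, ?_, ?_⟩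
  · intro k
    refine ⟨Pool.Agent.H9.sigmaP_mono A k, fun hsub => ?_⟩
    obtain ⟨q, p, ⟨TT, hTT⟩, hL⟩ := hsub (auSigmaP_subset A (k + 1) (hmem k true))
    apply hno true k (Sum.inr q) (Sum.inr (TT.comp (Polynomial.X + Polynomial.C k * q))) p
    intro x
    rw [hL x]
    simp only [Sum.elim_inr]
    rw [Pool.Agent.H9.Alt_eq, Pool.Agent.H9.Alt_eq]
    apply Pool.Agent.H9.AltL_congr
    intro us hus
    have h1 : totalLength (x :: us) = x.length + k * q.eval x.length :=
      Pool.Agent.H9.totalLength_cons_path hus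
    have hlen : us.length = k := by
      have := congrArg List.length hus
      simpa using this
    have h2 := hTT (x :: us) (by simp [hlen])
    have h3 : (TT.comp (Polynomial.X + Polynomial.C k * q)).eval x.length =
        TT.eval (totalLength (x :: us)) := by
      rw [h1]
      simp [Polynomial.eval_comp]
    rw [h3]
    exact Pool.Agent.H9.accepts_iff_of_halted h2
  · intro k
    refine ⟨Lg Tb.W (k + 1) true, hmem k true, ?_, ?_⟩
    · rw [lg_compl Tb.len k]
      exact hmem k false
    · rintro e i j ⟨p, hp⟩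
      exact hno e k (Sum.inl i) (Sum.inl j) p hp
  · rintro k L ⟨q, p, ⟨TT, hTT⟩, hL⟩ G mP ⟨TG, hTG⟩
    obtain ⟨e, he⟩ := hg (p, q, TT, k)
    -- the question type decides `L`
    have hans : ∀ x, x ∈ L ↔ (g e).ans A x := by
      intro x
      rw [hL x, he]
      unfold Pool.Agent.H9.Qn.ans
      rw [Pool.Agent.H9.Alt_eq, Pool.Agent.H9.Alt_eq]
      apply Pool.Agent.H9.AltL_congr
      intro us hus
      have h1 : totalLength (x :: us) = x.length + k * q.eval x.length :=
        Pool.Agent.H9.totalLength_cons_path hus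
      have hlen : us.length = k := by
        have := congrArg List.length hus
        simpa using this
      have h2 := hTT (x :: us) (by simp [hlen])
      have h3 : Pool.Agent.H9.Qn.t (p, q, TT, k) x.length = TT.eval (totalLength (x :: us)) := by
        rw [h1]; rfl
      rw [h3]
      exact Pool.Agent.H9.accepts_iff_of_halted h2
    -- the exponent
    obtain ⟨P1, hP1⟩ := Pool.Agent.H9.bnd_poly (g e)
    obtain ⟨c0, hc0⟩ := Pool.Agent.H9.poly_le_pow
      ((P1.comp (Polynomial.X + mP + TG.comp (Polynomial.X + mP)) + 2) ^ 2)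
    obtain ⟨i, hi⟩ := hhs (e, G, mP, TG, c0)
    have hok : (hs i).ok g := by
      intro n
      rw [hi]
      show ((g e).bnd (n + mP.eval n + TG.eval (n + mP.eval n)) + 2) ^ 2 ≤ (n + 2) ^ 2 ^ c0
      rw [hP1]
      have := hc0 n
      simpa [Polynomial.eval_comp] using this
    refine ⟨heur2 e c0, polyTime_heur2 A e c0, ?_, fun c => ?_⟩
    · intro y x
      refine ⟨out2 A e c0 y x, (outputs_heur2 A e c0 y x _).2 rfl, ?_⟩
      unfold out2
      by_cases h1 : A (true :: true :: code e x ((y.length + 2) ^ 2 ^ c0)) = true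
      · rw [if_pos h1]
        right; left
        refine ⟨rfl, ?_⟩
        rw [hans x]
        exact (orc_sound g Tb h1).2 rfl
      · rw [if_neg h1]
        by_cases h2 : A (true :: false :: code e x ((y.length + 2) ^ 2 ^ c0)) = true
        · rw [if_pos h2]
          right; right
          refine ⟨rfl, ?_⟩
          rw [hans x]
          intro h3
          have := (orc_sound g Tb h2).1 h3
          simp at this
        · rw [if_neg h2]
          left; rfl
    refine ⟨m (i + c + 1) + 1, fun n l hn => ?_⟩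
    have hNn : n + l ≤ (hs i).N (n + l) := (hs i).le_N (n + l)
    set N := (hs i).N (n + l) with hNdef
    -- the stage
    obtain ⟨t, ht1, ht2, ht3⟩ : ∃ t, i + c + 1 ≤ t ∧ m t ≤ N ∧ N < m (t + 1) := by
      have hex2 : ∃ t, i + c + 1 < t ∧ N < m t :=
        ⟨N + i + c + 2, by omega, by have := hm (N + i + c + 2); omega⟩
      have h2 := Nat.find_spec hex2
      have h3 : ∀ u < Nat.find hex2, ¬ (i + c + 1 < u ∧ N < m u) := fun u hu =>
        Nat.find_min hex2 hu
      refine ⟨Nat.find hex2 - 1, by omega, ?_, ?_⟩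
      · by_contra hcon
        by_cases h4 : i + c + 1 < Nat.find hex2 - 1
        · exact h3 _ (by omega) ⟨h4, by omega⟩
        · have h5 : Nat.find hex2 - 1 = i + c + 1 := by omega
          rw [h5] at hcon
          omega
      · have h6 : Nat.find hex2 - 1 + 1 = Nat.find hex2 := by omega
        rw [h6]
        exact h2.2
    have hgd := hgood t i (by omega) hok n l ht2 ht3
    have hcount : Set.ncard {r : List Bool | r.length = mP.eval n ∧ ∃ x : List Bool,
        Outputs A G [List.replicate n true, r] x ∧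
          Outputs A (heur2 e c0) [List.replicate (n + l) true, x] []} ≤
        ((strings ((hs i).m n)).filter (fun r => Unk (hs i) A n l r)).card := by
      rw [← Set.ncard_coe_finset]
      apply Set.ncard_le_ncard _ (Finset.finite_toSet _)
      rintro r ⟨hr1, x, hx, hne⟩
      rw [Finset.mem_coe]
      have hr2 : r.length = (hs i).m n := by rw [hi]; exact hr1
      refine Finset.mem_filter.2 ⟨mem_strings.2 hr2, ?_⟩
      have hhalt : (run A G (inp n r) (TG.eval (n + mP.eval n))).1 = [] := by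
        have := hTG (inp n r) (by simp [inp])
        rw [Pool.Agent.H9.totalLength_inp, hr1] at this
        exact this
      have hxe : x = (hs i).str A n r := by
        rw [hi]
        exact Pool.Agent.H9.outputs_unique hhalt hx
      have hN : (hs i).N (n + l) = ((List.replicate (n + l) true).length + 2) ^ 2 ^ c0 := by
        rw [hi, List.length_replicate]
        rfl
      have hi1 : (hs i).1 = e := by rw [hi]
      rw [outputs_heur2] at hne
      unfold Unk
      rw [← hxe, hN, hi1]
      intro b hb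
      unfold out2 at hne
      cases b with
      | true =>
        rw [if_pos hb] at hne
        simp at hne
      | false =>
        by_cases h1 : A (true :: true :: code e x
            (((List.replicate (n + l) true).length + 2) ^ 2 ^ c0)) = true
        · rw [if_pos h1] at hne
          simp at hne
        · rw [if_neg h1, if_pos hb] at hne
          simp at hne
    calc (n + l) ^ c * Set.ncard {r : List Bool | r.length = mP.eval n ∧ ∃ x : List Bool,
        Outputs A G [List.replicate n true, r] x ∧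
          Outputs A (heur2 e c0) [List.replicate (n + l) true, x] []}
        ≤ N ^ t * ((strings ((hs i).m n)).filter (fun r => Unk (hs i) A n l r)).card := by
          apply Nat.mul_le_mul _ hcount
          calc (n + l) ^ c ≤ N ^ c := Nat.pow_le_pow_left hNn c
            _ ≤ N ^ t := Nat.pow_le_pow_right (by omega) (by omega)
      _ ≤ 2 ^ ((hs i).m n) := hgd
      _ = 2 ^ (mP.eval n) := by rw [hi]; rfl

end Pool.Agent.Er9
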